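import Pool.Agent.R957.Crn.Main

/-!
# Slowly switching monomolecular reaction networks need not be evanescent

Definitions: `Pool.Agent.R957.Crn.Defs`.

Environment 0: `S₁ → S₂` with rate constant `2`, `S₂ → 2 S₂` and `0 → S₁` with constant `1`.
Environment 1: `S₁ → 2 S₁` and `0 → S₁` with constant `1`, `S₂ → 0` with constant `2`.
-/

open Filter MeasureTheory Topology
open scoped ENNReal NNReal

namespace Pool.Agent.Results.MP_adc20b_pr.NotEvanescent

open Pool.Agent.R957.Crn

/-- Two environments on two species which satisfy the hypotheses of the question, with the vectors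
`v 0, v 1`, such that no state is evanescent, for any `κ > 0`. (The last line: the jump times
tend to infinity, so that the process is defined at all times.) -/
theorem result : ∃ (R : Fin 2 → Network 2) (M : Fin 2 → Matrix (Fin 2) (Fin 2) ℝ)
    (Q : Fin 2 → Fin 2 → ℝ≥0) (v : Fin 2 → Fin 2 → ℝ),
    (∀ i, AtMostMonomolecular (R i)) ∧ (∀ i, IsDrift (R i) (M i)) ∧ IrreducibleRates Q ∧
    (∀ i m, 0 ≤ v i m) ∧ (∀ i m, v i m ≠ 0 → 0 < (Matrix.vecMul (v i) (M i)) m) ∧
    (∃ m, ∀ i, v i m ≠ 0) ∧
    ∀ κ : ℝ≥0, 0 < κ → ∀ z : (Fin 2 → ℕ) × Fin 2, ¬ Evanescent R Q κ z ∧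
      ∀ᵐ ω ∂(law (rate R Q κ)), Tendsto (jumpTime (rate R Q κ) z ω) atTop (𝓝 ∞) := by
  refine ⟨nets, mats, sw, vecs, ?_, ?_, ?_, ?_, vecs_pos, ⟨0, ?_⟩, fun κ hκ z => ⟨?_, ?_⟩⟩
  · intro i; fin_cases i
    · exact mono_net0
    · exact mono_net1
  · intro i; fin_cases i
    · exact drift_net0
    · exact drift_net1
  · intro i j
    by_cases h : i = j
    · rw [h]
    · exact Relation.ReflTransGen.single ⟨h, by simp [sw]⟩
  · intro i m
    fin_cases i <;> fin_cases m <;> simp [vecs]
  · intro i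
    fin_cases i <;> simp [vecs]
  · unfold Evanescent
    rw [not_lt, nonpos_iff_eq_zero]
    have h := not_evanescent (rate nets sw κ) (total_ne_zero κ) (total_ne_top κ) z
      (nets_not_tendsto hκ z) (fun s => ∑ m, s.1 m)
    rw [ae_iff] at h
    simpa using h
  · exact no_explosion (rate nets sw κ) (total_ne_top κ) z (nets_not_tendsto hκ z)

end Pool.Agent.Results.MP_adc20b_pr.NotEvanescent
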